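import Pool.Agent.Lib.MP_eee9c1_co.TP.KUni17
import Pool.Agent.Lib.MP_eee9c1_co.TP.KRat17

/-!
# Parity of the type of numerical semigroups of given genus

For `g ≥ 1` let `O g`, `E g` be the numbers of numerical semigroups of genus `g` with odd, even type,
`OB K g`, `EB K g` the same numbers for the semigroups which contain all `n ≥ 2 m + K` (`m` the least
nonzero element), that is, whose Frobenius number is less than `2 m + K`, and `D K g` the number of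
the other semigroups of genus `g`.

(1) There is `C` such that for all `K` and all `g ≥ 7 K + 6` we have
`|OB K g - EB K g| ≤ C 8 ^ K (39/25) ^ g` and `|O g - E g| ≤ C 8 ^ K (39/25) ^ g + D K g`.

(2) There is `C` such that for all `g` we have `OB 0 g + EB 0 g = fib (g + 1)` and
`O g`, `E g ≥ fib (g + 1) / 2 - C (39/25) ^ g`.

(3) If for every `ε > 0` there is `K` with `D K g ≤ ε (O g + E g)` for all large `g` (a theorem of
Zhai, a hypothesis here), then `E g / O g → 1`.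

Proof: `Pool.Agent.Lib.MP_eee9c1_co.TP.Defs60` and `DefsK17` (pages), rows by helpers 9, 11, 17, 60,
73, 76, 88, 97.
-/

set_option autoImplicit false

namespace Pool.Agent.Results.MP_eee9c1_co.TypeParity

/-- numerical semigroup -/
def IsNumericalSemigroup (S : Set ℕ) : Prop :=
  0 ∈ S ∧ (∀ a ∈ S, ∀ b ∈ S, a + b ∈ S) ∧ Sᶜ.Finite

/-- number of gaps -/
noncomputable def genus (S : Set ℕ) : ℕ := Sᶜ.ncard

/-- pseudo-Frobenius numbers -/
def PseudoFrobenius (S : Set ℕ) : Set ℕ := {x | x ∉ S ∧ ∀ s ∈ S, s ≠ 0 → x + s ∈ S}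

/-- type -/
noncomputable def typ (S : Set ℕ) : ℕ := (PseudoFrobenius S).ncard

/-- all `n ≥ 2 m + K` belong to `S`, `m` the least nonzero element of `S` -/
def Below (K : ℕ) (S : Set ℕ) : Prop := ∀ s ∈ S, s ≠ 0 → ∀ n, 2 * s + K ≤ n → n ∈ S

/-- `O g` -/
noncomputable def numOdd (g : ℕ) : ℕ :=
  {S : Set ℕ | IsNumericalSemigroup S ∧ genus S = g ∧ Odd (typ S)}.ncard

/-- `E g` -/
noncomputable def numEven (g : ℕ) : ℕ :=
  {S : Set ℕ | IsNumericalSemigroup S ∧ genus S = g ∧ Even (typ S)}.ncard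

/-- `OB K g` -/
noncomputable def numOddBelow (K g : ℕ) : ℕ :=
  {S : Set ℕ | IsNumericalSemigroup S ∧ Below K S ∧ genus S = g ∧ Odd (typ S)}.ncard

/-- `EB K g` -/
noncomputable def numEvenBelow (K g : ℕ) : ℕ :=
  {S : Set ℕ | IsNumericalSemigroup S ∧ Below K S ∧ genus S = g ∧ Even (typ S)}.ncard

/-- `D K g` -/
noncomputable def numNotBelow (K g : ℕ) : ℕ :=
  {S : Set ℕ | IsNumericalSemigroup S ∧ genus S = g ∧ ¬ Below K S}.ncard

theorem result :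
    (∃ C : ℝ, 0 < C ∧ ∀ K g : ℕ, 7 * K + 6 ≤ g →
      |(numOddBelow K g : ℝ) - numEvenBelow K g| ≤ C * 8 ^ K * (39 / 25) ^ g ∧
      |(numOdd g : ℝ) - numEven g| ≤ C * 8 ^ K * (39 / 25) ^ g + numNotBelow K g) ∧
    (∃ C : ℝ, 0 < C ∧ ∀ g : ℕ,
      numOddBelow 0 g + numEvenBelow 0 g = Nat.fib (g + 1) ∧
      (Nat.fib (g + 1) : ℝ) / 2 - C * (39 / 25) ^ g ≤ numOdd g ∧
      (Nat.fib (g + 1) : ℝ) / 2 - C * (39 / 25) ^ g ≤ numEven g) ∧
    ((∀ ε : ℝ, 0 < ε → ∃ K : ℕ, ∀ᶠ g in Filter.atTop,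
        (numNotBelow K g : ℝ) ≤ ε * (numOdd g + numEven g)) →
      Filter.Tendsto (fun g => (numEven g : ℝ) / numOdd g) Filter.atTop (nhds 1)) := by
  have h1 : ∀ K : ℕ, ∃ C : ℝ, 0 < C ∧ ∀ g : ℕ,
      |(numOddBelow K g : ℝ) - numEvenBelow K g| ≤ C * (39 / 25) ^ g ∧
      |(numOdd g : ℝ) - numEven g| ≤ C * (39 / 25) ^ g + numNotBelow K g :=
    Pool.Agent.Lib.MP_eee9c1_co.TP.allK17
  have h2 : ∃ C : ℝ, 0 < C ∧ ∀ g : ℕ,
      numOddBelow 0 g + numEvenBelow 0 g = Nat.fib (g + 1) ∧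
      (Nat.fib (g + 1) : ℝ) / 2 - C * (39 / 25) ^ g ≤ numOdd g ∧
      (Nat.fib (g + 1) : ℝ) / 2 - C * (39 / 25) ^ g ≤ numEven g := by
    obtain ⟨C, hC, h⟩ := Pool.Agent.Lib.MP_eee9c1_co.TP.all60
    exact ⟨C, hC, fun g => ⟨(h g).1, (h g).2.2.1, (h g).2.2.2⟩⟩
  refine ⟨Pool.Agent.Lib.MP_eee9c1_co.TP.allU17, h2, fun h3 => ?_⟩
  refine Pool.Agent.Lib.MP_eee9c1_co.TP.ratio17 numOdd numEven numNotBelow ?_ ?_ h3
  · intro K
    obtain ⟨C, hC, h⟩ := h1 K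
    exact ⟨C, hC, fun g => (h g).2⟩
  · obtain ⟨C, hC, h⟩ := h2
    exact ⟨C, hC, fun g => (h g).2.1⟩

end Pool.Agent.Results.MP_eee9c1_co.TypeParity
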